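import Pool.Agent.Helper51.PP.Spec

set_option autoImplicit false

namespace Pool.Agent.Helper40.PC.ERG

open MeasureTheory ProbabilityTheory Filter Topology Pool.Agent.Helper51.PP
open scoped ENNReal BigOperators

theorem gap_of_true {d : ℕ} (ω : Conf d) (e : Fin d × Bool) (h : ω (dirVec e) = true) :
    gap ω 0 e = 1 := by
  unfold gap
  apply le_antisymm
  · apply Nat.sInf_le
    simp [h]
  · have hne : ({k : ℕ | 1 ≤ k ∧ ω ((0 : Fin d → ℤ) + (k : ℤ) • dirVec e) = true}).Nonempty :=
      ⟨1, by simp [h]⟩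
    exact (Nat.sInf_mem hne).1

theorem gap_of_false {d : ℕ} (ω : Conf d) (hω : Good ω) (e : Fin d × Bool)
    (h : ω (dirVec e) = false) :
    gap ω 0 e = gap (shiftConf (dirVec e) ω) 0 e + 1 := by
  have hne1 : ({k : ℕ | 1 ≤ k ∧ ω ((0 : Fin d → ℤ) + (k : ℤ) • dirVec e) = true}).Nonempty :=
    hω 0 e
  have hne2 : ({k : ℕ | 1 ≤ k ∧
      (shiftConf (dirVec e) ω) ((0 : Fin d → ℤ) + (k : ℤ) • dirVec e) = true}).Nonempty := by
    obtain ⟨k, hk1, hk2⟩ := hω (dirVec e) e
    refine ⟨k, hk1, ?_⟩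
    simpa [shiftConf] using hk2
  unfold gap
  apply le_antisymm
  · obtain ⟨h1, h2⟩ := Nat.sInf_mem hne2
    apply Nat.sInf_le
    refine ⟨by omega, ?_⟩
    set g := sInf {k : ℕ | 1 ≤ k ∧
        (shiftConf (dirVec e) ω) ((0 : Fin d → ℤ) + (k : ℤ) • dirVec e) = true} with hg
    refine Eq.trans ?_ h2
    simp only [shiftConf]
    congr 1
    push_cast
    rw [add_smul, one_smul]
    abel
  · obtain ⟨h1, h2⟩ := Nat.sInf_mem hne1
    set g := sInf {k : ℕ | 1 ≤ k ∧ ω ((0 : Fin d → ℤ) + (k : ℤ) • dirVec e) = true} with hg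
    have hg1 : g ≠ 1 := by
      intro h3
      rw [h3] at h2
      simp at h2
      rw [h2] at h
      exact absurd h (by simp)
    have h4 : sInf {k : ℕ | 1 ≤ k ∧
        (shiftConf (dirVec e) ω) ((0 : Fin d → ℤ) + (k : ℤ) • dirVec e) = true} ≤ g - 1 := by
      apply Nat.sInf_le
      refine ⟨by omega, ?_⟩
      refine Eq.trans ?_ h2
      simp only [shiftConf]
      congr 1
      have : ((g - 1 : ℕ) : ℤ) = (g : ℤ) - 1 := by omega
      rw [this, sub_smul, one_smul]
      abel
    omega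

theorem Tm_shift {d : ℕ} (ω : Conf d) (hω : Good ω) (e : Fin d × Bool)
    (h : ω (dirVec e) = false) : Tm (shiftConf (dirVec e) ω) e = Tm ω e := by
  unfold Tm
  rw [gap_of_false ω hω e h]
  funext y
  simp only [shiftConf]
  congr 1
  push_cast
  rw [add_smul, one_smul]
  abel

theorem main (hMP : S_MP) (hGOOD : S_GOOD) : S_ERG := by
  intro d Q hQ i
  have := hQ.prob
  have hmp := hMP d Q hQ (i, true)
  have hgood := hGOOD d Q hQ
  have herg := hQ.ergodic i
  refine { toMeasurePreserving := hmp, toPreErgodic := ⟨?_⟩ }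
  intro A hA hinv
  have hdir : (dirVec ((i, true) : Fin d × Bool)) = (Pi.single i 1 : Fin d → ℤ) := by
    simp [dirVec]
  have hinv' : ∀ ω : Conf d, Tm ω (i, true) ∈ A ↔ ω ∈ A := by
    intro ω
    have := congrArg (fun s : Set (Conf d) => ω ∈ s) hinv
    simpa using this
  have hae : (shiftConf (Pi.single i 1 : Fin d → ℤ)) ⁻¹' A =ᵐ[Q] A := by
    filter_upwards [hgood] with ω hω
    apply propext
    change shiftConf (Pi.single i 1 : Fin d → ℤ) ω ∈ A ↔ ω ∈ A
    rw [← hdir]
    by_cases h : ω (dirVec ((i, true) : Fin d × Bool)) = true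
    · have h1 : Tm ω (i, true) = shiftConf (dirVec ((i, true) : Fin d × Bool)) ω := by
        unfold Tm
        rw [gap_of_true ω _ h]
        simp
      rw [← h1]
      exact hinv' ω
    · have h' : ω (dirVec ((i, true) : Fin d × Bool)) = false := by simpa using h
      rw [← hinv' (shiftConf (dirVec ((i, true) : Fin d × Bool)) ω), Tm_shift ω hω _ h']
      exact hinv' ω
  have hac : cond Q (Om0 d) ≪ Q := cond_absolutelyContinuous
  rcases herg.quasiErgodic.ae_empty_or_univ₀ hA.nullMeasurableSet hae with h | h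
  · rw [Filter.eventuallyConst_set']
    exact Or.inl (hac.ae_eq h)
  · rw [Filter.eventuallyConst_set']
    exact Or.inr (hac.ae_eq h)

end Pool.Agent.Helper40.PC.ERG
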